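import Pool.Agent.TH51.SeymourTrace.Blocks
import Pool.Agent.TH51.SeymourTrace.Walk

/-!
Problem MP_651d35_co, Q1: vertexwise out-degree sums at least `n`.  A rainbow cycle exists if the
digraphs split into: digraphs with all out-degrees at most one; a class which is a single arbitrary
digraph or is invariant under one transitive group; and a class invariant under one (possibly
different) transitive group.
-/

set_option autoImplicit false

namespace Pool.Agent.Results.MP_651d35_co.MixedClasses

open Pool.Agent.TH51.SeymourTrace Pool.Agent.TH51.SeymourTrace.Blocks Finset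

variable {n t : ℕ}

theorem adj_diag (E : Fin t → Finset (Fin n × Fin n)) (k : Fin t) (u : Fin n) :
    adj E k u u = 1 := by simp [adj]

theorem adj_ne_zero (E : Fin t → Finset (Fin n × Fin n)) (k : Fin t) (u v : Fin n) :
    adj E k u v ≠ 0 ↔ u = v ∨ (u, v) ∈ E k := by
  unfold adj
  split_ifs with h
  · simp [h]
  · simp [h]

theorem adj_row (E : Fin t → Finset (Fin n × Fin n))
    (hloop : ∀ i, ∀ e ∈ E i, e.1 ≠ e.2) (k : Fin t) (u : Fin n) :
    ((E k).filter (fun e => e.1 = u)).card + 1 ≤ rowSupp (adj E k) u := by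
  classical
  set S := ((E k).filter (fun e => e.1 = u)).image Prod.snd with hS
  have hSc : S.card = ((E k).filter (fun e => e.1 = u)).card := by
    apply Finset.card_image_of_injOn
    intro e he e' he' h
    have h1 := (Finset.mem_filter.mp (Finset.mem_coe.mp he)).2
    have h2 := (Finset.mem_filter.mp (Finset.mem_coe.mp he')).2
    exact Prod.ext (h1.trans h2.symm) h
  have huS : u ∉ S := by
    intro h
    rw [hS, Finset.mem_image] at h
    obtain ⟨e, he, hu⟩ := h
    rw [Finset.mem_filter] at he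
    exact hloop k e he.1 (he.2.trans hu.symm)
  have hsub : insert u S ⊆ (Finset.univ : Finset (Fin n)).filter (fun v => adj E k u v ≠ 0) := by
    intro v hv
    rw [Finset.mem_filter]
    refine ⟨Finset.mem_univ _, ?_⟩
    rw [adj_ne_zero]
    rcases Finset.mem_insert.mp hv with h | h
    · exact Or.inl h.symm
    · right
      rw [hS, Finset.mem_image] at h
      obtain ⟨e, he, hu⟩ := h
      rw [Finset.mem_filter] at he
      have : e = (u, v) := Prod.ext he.2 hu
      rw [← this]; exact he.1
  have h1 := Finset.card_le_card hsub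
  rw [Finset.card_insert_of_notMem huS, hSc] at h1
  unfold rowSupp
  omega

theorem concat (E : Fin t → Finset (Fin n × Fin n)) (m1 m2 : ℕ) (v1 v2 : ℕ → Fin n)
    (f1 f2 : ℕ → Fin t) (h1 : IsWalk E m1 v1 f1) (h2 : IsWalk E m2 v2 f2) (hj : v1 m1 = v2 0)
    (hd : ∀ i < m1, ∀ j < m2, f1 i ≠ f2 j) :
    ∃ v f, IsWalk E (m1 + m2) v f ∧ v 0 = v1 0 ∧ v (m1 + m2) = v2 m2 ∧
      (∀ i < m1 + m2, (∃ j < m1, f i = f1 j) ∨ ∃ j < m2, f i = f2 j) := by
  refine ⟨fun i => if i < m1 then v1 i else v2 (i - m1),
    fun i => if i < m1 then f1 i else f2 (i - m1), ⟨?_, ?_⟩, ?_, ?_, ?_⟩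
  · intro i hi
    by_cases h : i < m1
    · by_cases h' : i + 1 < m1
      · simp only [h, h', if_true]
        exact h1.1 i h
      · have e : i + 1 = m1 := by omega
        have e2 : i + 1 - m1 = 0 := by omega
        simp only [h, h', if_true, if_false, e2]
        rw [← hj, ← e]
        exact h1.1 i h
    · have h' : ¬ i + 1 < m1 := by omega
      have e2 : i + 1 - m1 = (i - m1) + 1 := by omega
      simp only [h, h', if_false, e2]
      exact h2.1 (i - m1) (by omega)
  · intro i hi j hj' hff
    by_cases h : i < m1 <;> by_cases h' : j < m1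
    · simp only [h, h', if_true] at hff
      exact h1.2 i h j h' hff
    · simp only [h, h', if_true, if_false] at hff
      exact absurd hff (hd i h (j - m1) (by omega))
    · simp only [h, h', if_true, if_false] at hff
      exact absurd hff.symm (hd j h' (i - m1) (by omega))
    · simp only [h, h', if_false] at hff
      have := h2.2 (i - m1) (by omega) (j - m1) (by omega) hff
      omega
  · by_cases h : 0 < m1
    · simp only [h, if_true]
    · have hm : m1 = 0 := by omega
      subst hm
      simp [hj]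
  · have h : ¬ m1 + m2 < m1 := by omega
    have e : m1 + m2 - m1 = m2 := by omega
    simp only [h, if_false, e]
  · intro i hi
    by_cases h : i < m1
    · exact Or.inl ⟨i, h, by simp [h]⟩
    · exact Or.inr ⟨i - m1, by omega, by simp [h]⟩

theorem tailWalk (E : Fin t → Finset (Fin n × Fin n)) (m : ℕ) (v : ℕ → Fin n) (f : ℕ → Fin t)
    (h : IsWalk E m v f) (a : ℕ) :
    IsWalk E (m - a) (fun x => v (a + x)) (fun x => f (a + x)) := by
  refine ⟨fun x hx => h.1 (a + x) (by omega), fun x hx y hy hxy => ?_⟩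
  have := h.2 (a + x) (by omega) (a + y) (by omega) hxy
  omega

theorem initWalk (E : Fin t → Finset (Fin n × Fin n)) (m : ℕ) (v : ℕ → Fin n) (f : ℕ → Fin t)
    (h : IsWalk E m v f) (a : ℕ) (ha : a ≤ m) : IsWalk E a v f :=
  ⟨fun i hi => h.1 i (by omega), fun i hi j hj => h.2 i (by omega) j (by omega)⟩

/-- A maximal walk with labels of class zero. -/
theorem greedy (E : Fin t → Finset (Fin n × Fin n)) (c : Fin t → Fin 3) (x0 : Fin t)
    (hzero : ∀ i, c i = 0 → ∀ v : Fin n, ((E i).filter (fun e => e.1 = v)).card ≤ 1)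
    (u : Fin n) :
    ∃ j v f, IsWalk E j v f ∧ v 0 = u ∧ (∀ i < j, c (f i) = 0) ∧
      ∑ i ∈ (Finset.univ : Finset (Fin t)).filter (fun i => c i = 0),
        ((E i).filter (fun e => e.1 = v j)).card ≤ j := by
  classical
  have hbound : ∀ m, (∃ v f, IsWalk E m v f ∧ v 0 = u ∧ (∀ i < m, c (f i) = 0)) → m ≤ t := by
    rintro m ⟨v, f, hw, -, -⟩
    have := Fintype.card_le_of_injective (fun i : Fin m => f i)
      (fun i j hij => Fin.ext (hw.2 i i.2 j j.2 hij))
    simpa using this
  obtain ⟨j, hj, hjmax⟩ : ∃ j, (∃ v f, IsWalk E j v f ∧ v 0 = u ∧ (∀ i < j, c (f i) = 0)) ∧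
      ¬ (∃ v f, IsWalk E (j + 1) v f ∧ v 0 = u ∧ (∀ i < j + 1, c (f i) = 0)) := by
    by_contra hcon
    have hall : ∀ m, (∃ v f, IsWalk E m v f ∧ v 0 = u ∧ (∀ i < m, c (f i) = 0)) := by
      intro m
      induction m with
      | zero =>
        exact ⟨fun _ => u, fun _ => x0, ⟨fun i hi => absurd hi (Nat.not_lt_zero i),
          fun i hi => absurd hi (Nat.not_lt_zero i)⟩, rfl, fun i hi => absurd hi (Nat.not_lt_zero i)⟩
      | succ k ih =>
        by_contra h
        exact hcon ⟨k, ih, h⟩
    have := hbound (t+1) (hall (t+1))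
    omega
  obtain ⟨v, f, hw, hv0, hf⟩ := hj
  refine ⟨j, v, f, hw, hv0, hf, ?_⟩
  have hnone : ∀ i, c i = 0 → (∀ a < j, f a ≠ i) →
      ((E i).filter (fun e => e.1 = v j)).card = 0 := by
    intro i hi hne
    rw [Finset.card_eq_zero, Finset.eq_empty_iff_forall_notMem]
    intro e he
    rw [Finset.mem_filter] at he
    apply hjmax
    have hw1 : IsWalk E 1 (fun x => if x = 0 then v j else e.2) (fun _ => i) := by
      refine ⟨fun x hx => ?_, fun x hx y hy _ => by omega⟩
      have hx0 : x = 0 := by omega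
      subst hx0
      have he2 : e = (v j, e.2) := Prod.ext he.2 rfl
      simpa [← he2] using he.1
    obtain ⟨v', f', hw', hv', -, hf'⟩ := concat E j 1 v (fun x => if x = 0 then v j else e.2) f
      (fun _ => i) hw hw1 (by simp) (fun a ha b hb => hne a ha)
    refine ⟨v', f', hw', hv'.trans hv0, fun a ha => ?_⟩
    rcases hf' a ha with ⟨b, hb, h⟩ | ⟨b, hb, h⟩
    · rw [h]; exact hf b hb
    · rw [h]; exact hi
  calc ∑ i ∈ (Finset.univ : Finset (Fin t)).filter (fun i => c i = 0),
        ((E i).filter (fun e => e.1 = v j)).card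
      ≤ ∑ i ∈ (Finset.univ : Finset (Fin t)).filter (fun i => c i = 0),
          (if i ∈ (Finset.range j).image f then 1 else 0) := by
        refine Finset.sum_le_sum (fun i hi => ?_)
        have hi0 := (Finset.mem_filter.mp hi).2
        split_ifs with h
        · exact hzero i hi0 _
        · rw [hnone i hi0 (fun a ha hfa =>
            h (Finset.mem_image.mpr ⟨a, Finset.mem_range.mpr ha, hfa⟩))]
    _ ≤ ∑ i : Fin t, (if i ∈ (Finset.range j).image f then 1 else 0) :=
        Finset.sum_le_sum_of_subset (Finset.filter_subset _ _)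
    _ = ((Finset.range j).image f).card := by
        rw [Finset.sum_ite_mem, Finset.univ_inter, Finset.sum_const, smul_eq_mul, mul_one]
    _ ≤ j := by
        have := Finset.card_image_le (s := Finset.range j) (f := f)
        rwa [Finset.card_range] at this

/-- `x` can be reached from `u` by a walk with pairwise different labels not of class two. -/
def Reach (E : Fin t → Finset (Fin n × Fin n)) (c : Fin t → Fin 3) (u x : Fin n) : Prop :=
  ∃ m v f, IsWalk E m v f ∧ v 0 = u ∧ v m = x ∧ ∀ i < m, c (f i) ≠ 2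

open Classical in
theorem reach_card (E : Fin t → Finset (Fin n × Fin n)) (c : Fin t → Fin 3) (x0 : Fin t)
    (hno : ∀ m v f, 1 ≤ m → IsWalk E m v f → v 0 ≠ v m)
    (hzero : ∀ i, c i = 0 → ∀ v : Fin n, ((E i).filter (fun e => e.1 = v)).card ≤ 1)
    (B1 : List (Fin t)) (hB1n : B1.Nodup) (hB1 : ∀ k, k ∈ B1 ↔ c k = 1)
    (hK : ∀ w : Fin n, 1 + ∑ i ∈ (Finset.univ : Finset (Fin t)).filter (fun i => c i = 1),
      ((E i).filter (fun e => e.1 = w)).card ≤ rowSupp ((B1.map (adj E)).prod) w)
    (u : Fin n) :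
    ∃ w : Fin n, 1 + ∑ i ∈ (Finset.univ : Finset (Fin t)).filter (fun i => c i = 0),
        ((E i).filter (fun e => e.1 = w)).card +
      ∑ i ∈ (Finset.univ : Finset (Fin t)).filter (fun i => c i = 1),
        ((E i).filter (fun e => e.1 = w)).card ≤
      ((Finset.univ : Finset (Fin n)).filter (fun x => Reach E c u x)).card := by
  obtain ⟨j, v, f, hw, hv0, hf, hsum⟩ := greedy E c x0 hzero u
  refine ⟨v j, ?_⟩
  set K := (B1.map (adj E)).prod with hKdef
  have hsub : (Finset.range j).image v ∪
      (Finset.univ : Finset (Fin n)).filter (fun x => K (v j) x ≠ 0) ⊆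
      (Finset.univ : Finset (Fin n)).filter (fun x => Reach E c u x) := by
    intro x hx
    rw [Finset.mem_filter]
    refine ⟨Finset.mem_univ _, ?_⟩
    rw [Finset.mem_union, Finset.mem_image, Finset.mem_filter] at hx
    rcases hx with ⟨a, ha, rfl⟩ | ⟨-, hx⟩
    · rw [Finset.mem_range] at ha
      refine ⟨a, v, f, initWalk E j v f hw a (by omega), hv0, rfl, fun i hi => ?_⟩
      rw [hf i (by omega)]; decide
    · obtain ⟨m2, v2, f2, hw2, hv20, hv2m, hf2⟩ := walk_of_ne_zero E x0 B1 hB1n _ _ hx
      obtain ⟨v', f', hw', hv'0, hv'm, hf'⟩ := concat E j m2 v v2 f f2 hw hw2 hv20.symm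
        (fun a ha b hb h => by
          have h1 := hf a ha
          have h2 := (hB1 _).mp (hf2 b hb)
          rw [h, h2] at h1
          exact absurd h1 (by decide))
      refine ⟨j + m2, v', f', hw', hv'0.trans hv0, hv'm.trans hv2m, fun i hi => ?_⟩
      rcases hf' i hi with ⟨b, hb, h⟩ | ⟨b, hb, h⟩
      · rw [h, hf b hb]; decide
      · rw [h, (hB1 _).mp (hf2 b hb)]; decide
  have hdis : Disjoint ((Finset.range j).image v)
      ((Finset.univ : Finset (Fin n)).filter (fun x => K (v j) x ≠ 0)) := by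
    rw [Finset.disjoint_left]
    intro x hx hx2
    rw [Finset.mem_image] at hx
    rw [Finset.mem_filter] at hx2
    obtain ⟨a, ha, rfl⟩ := hx
    rw [Finset.mem_range] at ha
    obtain ⟨m2, v2, f2, hw2, hv20, hv2m, hf2⟩ := walk_of_ne_zero E x0 B1 hB1n _ _ hx2.2
    have hs := tailWalk E j v f hw a
    have hja : a + (j - a) = j := by omega
    obtain ⟨v', f', hw', hv'0, hv'm, hf'⟩ := concat E (j - a) m2 (fun x => v (a + x)) v2
      (fun x => f (a + x)) f2 hs hw2 (by show v (a + (j - a)) = v2 0; rw [hja, hv20])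
      (fun b hb b' hb' h => by
        have h1 := hf (a + b) (by omega)
        have h2 := (hB1 _).mp (hf2 b' hb')
        have h3 : f (a + b) = f2 b' := h
        rw [h3, h2] at h1
        exact absurd h1 (by decide))
    apply hno (j - a + m2) v' f' (by omega) hw'
    rw [hv'0, hv'm, hv2m]
    rfl
  have hinj : ((Finset.range j).image v).card = j := by
    rw [Finset.card_image_of_injOn, Finset.card_range]
    have key : ∀ a b, a < b → b < j → v a ≠ v b := by
      intro a b hab hbj heq
      have hs := tailWalk E b v f (initWalk E j v f hw b (by omega)) a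
      apply hno (b - a) _ _ (by omega) hs
      show v (a + 0) = v (a + (b - a))
      rw [Nat.add_zero, heq]
      congr 1
      omega
    intro a ha b hb hab
    have ha' := Finset.mem_range.mp (Finset.mem_coe.mp ha)
    have hb' := Finset.mem_range.mp (Finset.mem_coe.mp hb)
    rcases lt_trichotomy a b with h | h | h
    · exact absurd hab (key a b h hb')
    · exact h
    · exact absurd hab.symm (key b a h ha')
  have hc := Finset.card_le_card hsub
  rw [Finset.card_union_of_disjoint hdis, hinj] at hc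
  have h1 := hK (v j)
  have h2 : rowSupp K (v j) =
      ((Finset.univ : Finset (Fin n)).filter (fun x => K (v j) x ≠ 0)).card := by
    unfold rowSupp
    congr
  omega

theorem inv_deg (E : Fin t → Finset (Fin n × Fin n)) (G : Subgroup (Equiv.Perm (Fin n)))
    (htr : ∀ u v : Fin n, ∃ g ∈ G, g u = v) (i : Fin t)
    (hG : ∀ g ∈ G, ∀ u v, (u, v) ∈ E i → (g u, g v) ∈ E i) (u v : Fin n) :
    ((E i).filter (fun e => e.1 = u)).card ≤ ((E i).filter (fun e => e.1 = v)).card := by
  obtain ⟨g, hg, hgu⟩ := htr u v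
  refine Finset.card_le_card_of_injOn (fun e => (g e.1, g e.2)) ?_ ?_
  · intro e he
    rw [Finset.mem_coe, Finset.mem_filter] at he ⊢
    refine ⟨hG g hg e.1 e.2 he.1, ?_⟩
    show g e.1 = v
    rw [he.2, hgu]
  · intro e _ e' _ h
    have h1 : g e.1 = g e'.1 := congrArg Prod.fst h
    have h2 : g e.2 = g e'.2 := congrArg Prod.snd h
    exact Prod.ext (g.injective h1) (g.injective h2)

theorem list_sum (c : Fin t → Fin 3) (a : Fin 3) (B : List (Fin t)) (hBn : B.Nodup)
    (hB : ∀ k, k ∈ B ↔ c k = a) (d : Fin t → ℕ) :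
    (B.map d).sum = ∑ i ∈ (Finset.univ : Finset (Fin t)).filter (fun i => c i = a), d i := by
  rw [← List.sum_toFinset _ hBn]
  congr 1
  ext k
  simp [hB]

theorem inv_prod (E : Fin t → Finset (Fin n × Fin n)) (hloop : ∀ i, ∀ e ∈ E i, e.1 ≠ e.2)
    (c : Fin t → Fin 3) (x0 : Fin t)
    (hno : ∀ m v f, 1 ≤ m → IsWalk E m v f → v 0 ≠ v m) (a : Fin 3)
    (G : Subgroup (Equiv.Perm (Fin n))) (htr : ∀ u v : Fin n, ∃ g ∈ G, g u = v)
    (hG : ∀ i, c i = a → ∀ g ∈ G, ∀ u v, (u, v) ∈ E i → (g u, g v) ∈ E i)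
    (B : List (Fin t)) (hBn : B.Nodup) (hB : ∀ k, k ∈ B ↔ c k = a) (w : Fin n) :
    1 + ∑ i ∈ (Finset.univ : Finset (Fin t)).filter (fun i => c i = a),
      ((E i).filter (fun e => e.1 = w)).card ≤ rowSupp ((B.map (adj E)).prod) w := by
  classical
  set F : Fin t → Mat n × ℕ := fun k => (adj E k, ((E k).filter (fun e => e.1 = w)).card) with hF
  have hmap : (B.map F).map Prod.fst = B.map (adj E) := by
    simp [hF, Function.comp_def]
  have hmap2 : (B.map F).map Prod.snd =
      B.map (fun k => ((E k).filter (fun e => e.1 = w)).card) := by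
    simp [hF, Function.comp_def]
  have h := (inv_list G htr (B.map F)
    (by
      intro x hx i
      obtain ⟨k, _, rfl⟩ := List.mem_map.mp hx
      show adj E k i i ≠ 0
      rw [adj_diag]; exact one_ne_zero)
    (by
      intro x hx i
      obtain ⟨k, hk, rfl⟩ := List.mem_map.mp hx
      have h1 := inv_deg E G htr k (hG k ((hB k).mp hk)) w i
      have h2 := adj_row E hloop k i
      show ((E k).filter (fun e => e.1 = w)).card + 1 ≤ rowSupp (adj E k) i
      omega)
    (by
      intro x hx
      obtain ⟨k, hk, rfl⟩ := List.mem_map.mp hx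
      have hk' : c k = a := (hB k).mp hk
      intro g hg u v
      have h1 : (g u = g v ∨ (g u, g v) ∈ E k) ↔ (u = v ∨ (u, v) ∈ E k) := by
        constructor
        · rintro (h | h)
          · exact Or.inl (g.injective h)
          · right
            have := hG k hk' g⁻¹ (G.inv_mem hg) _ _ h
            simpa using this
        · rintro (h | h)
          · exact Or.inl (by rw [h])
          · exact Or.inr (hG k hk' g hg _ _ h)
      show adj E k (g u) (g v) = adj E k u v
      unfold adj
      simp only [h1])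
    (by rw [hmap]; exact diag_le_one E x0 hno B hBn)).2 w
  rw [hmap, hmap2, list_sum c a B hBn hB] at h
  exact h

theorem single_prod (E : Fin t → Finset (Fin n × Fin n)) (hloop : ∀ i, ∀ e ∈ E i, e.1 ≠ e.2)
    (c : Fin t → Fin 3) (a : Fin 3) (hone : ∀ i j, c i = a → c j = a → i = j)
    (B : List (Fin t)) (hBn : B.Nodup) (hB : ∀ k, k ∈ B ↔ c k = a) (w : Fin n) :
    1 + ∑ i ∈ (Finset.univ : Finset (Fin t)).filter (fun i => c i = a),
      ((E i).filter (fun e => e.1 = w)).card ≤ rowSupp ((B.map (adj E)).prod) w := by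
  classical
  rw [← list_sum c a B hBn hB]
  match B, hBn, hB with
  | [], _, _ =>
    simp only [List.map_nil, List.sum_nil, List.prod_nil, add_zero]
    rw [rowSupp, Nat.succ_le_iff, Finset.card_pos]
    exact ⟨w, by simp⟩
  | [k], _, _ =>
    have := adj_row E hloop k w
    simp only [List.map_cons, List.map_nil, List.sum_cons, List.sum_nil, List.prod_cons,
      List.prod_nil, mul_one, add_zero]
    omega
  | k :: l :: B', hBn, hB =>
    exfalso
    have h1 := hone k l ((hB k).mp (by simp)) ((hB l).mp (by simp))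
    rw [List.nodup_cons] at hBn
    apply hBn.1
    rw [h1]
    simp

theorem result (n t : ℕ) (hn : 0 < n) (E : Fin t → Finset (Fin n × Fin n))
    (hloop : ∀ i, ∀ e ∈ E i, e.1 ≠ e.2)
    (hsum : ∀ v : Fin n, n ≤ ∑ i, ((E i).filter (fun e => e.1 = v)).card)
    (c : Fin t → Fin 3)
    (hzero : ∀ i, c i = 0 → ∀ v : Fin n, ((E i).filter (fun e => e.1 = v)).card ≤ 1)
    (hone : (∀ i j, c i = 1 → c j = 1 → i = j) ∨
      ∃ G : Subgroup (Equiv.Perm (Fin n)), (∀ u v : Fin n, ∃ g ∈ G, g u = v) ∧
        ∀ i, c i = 1 → ∀ g ∈ G, ∀ u v, (u, v) ∈ E i → (g u, g v) ∈ E i)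
    (htwo : ∃ G : Subgroup (Equiv.Perm (Fin n)), (∀ u v : Fin n, ∃ g ∈ G, g u = v) ∧
        ∀ i, c i = 2 → ∀ g ∈ G, ∀ u v, (u, v) ∈ E i → (g u, g v) ∈ E i) :
    ∃ k : ℕ, 2 ≤ k ∧ ∃ v : Fin k → Fin n, Function.Injective v ∧
      ∃ f : Fin k → Fin t, Function.Injective f ∧
        ∀ j : Fin k, (v j, v (finRotate k j)) ∈ E (f j) := by
  classical
  by_contra hcon
  have hno : ∀ m v f, 1 ≤ m → IsWalk E m v f → v 0 ≠ v m := by
    intro m v f hm hw hcl
    exact hcon (cycle_of_walk E hloop ⟨m, v, f, hm, hw, hcl⟩)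
  rcases Nat.eq_zero_or_pos t with ht | ht
  · subst ht
    have := hsum ⟨0, hn⟩
    simp at this
    omega
  set x0 : Fin t := ⟨0, ht⟩
  set B1 := ((Finset.univ : Finset (Fin t)).filter (fun k => c k = 1)).toList with hB1d
  set B2 := ((Finset.univ : Finset (Fin t)).filter (fun k => c k = 2)).toList with hB2d
  have hB1n : B1.Nodup := Finset.nodup_toList _
  have hB2n : B2.Nodup := Finset.nodup_toList _
  have hB1 : ∀ k, k ∈ B1 ↔ c k = 1 := fun k => by simp [hB1d]
  have hB2 : ∀ k, k ∈ B2 ↔ c k = 2 := fun k => by simp [hB2d]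
  obtain ⟨G2, htr2, hG2⟩ := htwo
  have hK : ∀ w : Fin n, 1 + ∑ i ∈ (Finset.univ : Finset (Fin t)).filter (fun i => c i = 1),
      ((E i).filter (fun e => e.1 = w)).card ≤ rowSupp ((B1.map (adj E)).prod) w := by
    intro w
    rcases hone with h | ⟨G, htr, hG⟩
    · exact single_prod E hloop c 1 h B1 hB1n hB1 w
    · exact inv_prod E hloop c x0 hno 1 G htr hG B1 hB1n hB1 w
  set Q := (B2.map (adj E)).prod with hQ
  set P : Mat n := fun u v => if Reach E c u v then 1 else 0 with hP
  have hPne : ∀ u v, P u v ≠ 0 ↔ Reach E c u v := by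
    intro u v
    simp [hP]
  have hcount := count P Q (by
    intro u v h1 h2
    rw [hPne] at h1
    obtain ⟨m1, v1, f1, hw1, hv10, hv1m, hf1⟩ := h1
    obtain ⟨m2, v2, f2, hw2, hv20, hv2m, hf2⟩ := walk_of_ne_zero E x0 B2 hB2n _ _ h2
    rcases Nat.eq_zero_or_pos m1 with h0 | h0
    · subst h0
      rw [← hv10, ← hv1m]
    · exfalso
      obtain ⟨v', f', hw', hv'0, hv'm, hf'⟩ := concat E m1 m2 v1 v2 f1 f2 hw1 hw2
        (hv1m.trans hv20.symm)
        (fun a ha b hb h => hf1 a ha (by rw [h]; exact (hB2 _).mp (hf2 b hb)))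
      apply hno (m1 + m2) v' f' (by omega) hw'
      rw [hv'0, hv'm, hv10, hv2m])
  have hrow : ∀ u : Fin n, n + 2 ≤ rowSupp P u + rowSupp Q u := by
    intro u
    obtain ⟨w, hw⟩ := reach_card E c x0 hno hzero B1 hB1n hB1 hK u
    have h1 := inv_prod E hloop c x0 hno 2 G2 htr2 hG2 B2 hB2n hB2 u
    rw [← hQ] at h1
    have h2 : ∑ i ∈ (Finset.univ : Finset (Fin t)).filter (fun i => c i = 2),
        ((E i).filter (fun e => e.1 = w)).card ≤
        ∑ i ∈ (Finset.univ : Finset (Fin t)).filter (fun i => c i = 2),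
        ((E i).filter (fun e => e.1 = u)).card := by
      refine Finset.sum_le_sum (fun i hi => ?_)
      exact inv_deg E G2 htr2 i (hG2 i (Finset.mem_filter.mp hi).2) w u
    have h3 : rowSupp P u =
        ((Finset.univ : Finset (Fin n)).filter (fun x => Reach E c u x)).card := by
      unfold rowSupp
      congr 1
      ext x
      simp only [Finset.mem_filter, Finset.mem_univ, true_and]
      exact hPne u x
    have h4 : ∑ i, ((E i).filter (fun e => e.1 = w)).card =
        ∑ i ∈ (Finset.univ : Finset (Fin t)).filter (fun i => c i = 0),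
          ((E i).filter (fun e => e.1 = w)).card +
        ∑ i ∈ (Finset.univ : Finset (Fin t)).filter (fun i => c i = 1),
          ((E i).filter (fun e => e.1 = w)).card +
        ∑ i ∈ (Finset.univ : Finset (Fin t)).filter (fun i => c i = 2),
          ((E i).filter (fun e => e.1 = w)).card := by
      rw [Finset.sum_filter, Finset.sum_filter, Finset.sum_filter, ← Finset.sum_add_distrib,
        ← Finset.sum_add_distrib]
      refine Finset.sum_congr rfl (fun i _ => ?_)
      have : c i = 0 ∨ c i = 1 ∨ c i = 2 := by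
        have : ∀ a : Fin 3, a = 0 ∨ a = 1 ∨ a = 2 := by decide
        exact this (c i)
      rcases this with h | h | h <;> simp [h]
    have h5 := hsum w
    rw [h4] at h5
    rw [h3]
    omega
  have h6 : n * (n + 2) ≤ ∑ u : Fin n, (rowSupp P u + rowSupp Q u) := by
    have := Finset.sum_le_sum (fun (u : Fin n) (_ : u ∈ Finset.univ) => hrow u)
    simpa using this
  rw [Finset.sum_add_distrib] at h6
  nlinarith

end Pool.Agent.Results.MP_651d35_co.MixedClasses
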